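import Pool.Agent.QEP.Stmts

/-!
# Row SGN: signs of the Peano curve
-/

namespace Pool.Agent.QEP.H10

open Pool.Agent.QEP

theorem sx_zero : sx 0 = 1 := by
  unfold sx
  rw [dif_pos rfl]

theorem sy_zero : sy 0 = 1 := by
  unfold sy
  rw [dif_pos rfl]

theorem sx_rec (i : ℕ) : sx i = sx (i / 9) * (-1) ^ (i % 3) := by
  by_cases h : i = 0
  · subst h
    simp [sx_zero]
  · conv_lhs => unfold sx
    rw [dif_neg h]

theorem sy_rec (i : ℕ) : sy i = sy (i / 9) * (-1) ^ (i % 9 / 3) := by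
  by_cases h : i = 0
  · subst h
    simp [sy_zero]
  · conv_lhs => unfold sy
    rw [dif_neg h]

theorem mul_pm {a : ℤ} (ha : a = 1 ∨ a = -1) (n : ℕ) : a * (-1) ^ n = 1 ∨ a * (-1) ^ n = -1 := by
  rcases ha with rfl | rfl <;> rcases neg_one_pow_eq_or ℤ n with h | h <;> rw [h] <;> simp

theorem sx_pm (i : ℕ) : sx i = 1 ∨ sx i = -1 := by
  induction i using Nat.strong_induction_on with
  | _ i ih =>
    by_cases h : i = 0
    · subst h
      exact Or.inl sx_zero
    · rw [sx_rec i]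
      exact mul_pm (ih _ (Nat.div_lt_self (Nat.pos_of_ne_zero h) (by norm_num))) _

theorem sy_pm (i : ℕ) : sy i = 1 ∨ sy i = -1 := by
  induction i using Nat.strong_induction_on with
  | _ i ih =>
    by_cases h : i = 0
    · subst h
      exact Or.inl sy_zero
    · rw [sy_rec i]
      exact mul_pm (ih _ (Nat.div_lt_self (Nat.pos_of_ne_zero h) (by norm_num))) _

theorem prod_eq (i : ℕ) : sx i * sy i = (-1) ^ i := by
  induction i using Nat.strong_induction_on with
  | _ i ih =>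
    by_cases h : i = 0
    · subst h
      rw [sx_zero, sy_zero]
      norm_num
    · rw [sx_rec i, sy_rec i]
      have h1 := ih _ (Nat.div_lt_self (Nat.pos_of_ne_zero h) (by norm_num : 1 < 9))
      have h2 : sx (i / 9) * (-1) ^ (i % 3) * (sy (i / 9) * (-1) ^ (i % 9 / 3)) =
          (sx (i / 9) * sy (i / 9)) * ((-1) ^ (i % 3) * (-1) ^ (i % 9 / 3)) := by ring
      rw [h2, h1, ← pow_add, ← pow_add]
      have h3 : ∃ k, i = i / 9 + (i % 3 + i % 9 / 3) + 2 * k := by
        refine ⟨4 * (i / 9) + i % 9 / 3, ?_⟩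
        omega
      obtain ⟨k, hk⟩ := h3
      conv_rhs => rw [hk]
      rw [pow_add _ _ (2 * k), pow_mul]
      norm_num

theorem sgn : SGNStmt := ⟨sx_pm, sy_pm, sx_rec, sy_rec, prod_eq⟩

end Pool.Agent.QEP.H10
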